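import Pool.Agent.H30.MZ.Stm

set_option autoImplicit false

/-! Part COS: averages of the products of cosines. -/

namespace Pool.Agent.H76.MZ

open Set Filter Topology MeasureTheory Pool.Agent.H30.MZ

lemma Q_nonneg (A k : ℕ) (τ : ℝ) : 0 ≤ Q A k τ := Finset.prod_nonneg fun _ _ => abs_nonneg _

lemma Q_le_one (A k : ℕ) (τ : ℝ) : Q A k τ ≤ 1 :=
  Finset.prod_le_one (fun _ _ => abs_nonneg _) fun _ _ => Real.abs_cos_le_one _

lemma Q_lip (A k : ℕ) (x y : ℝ) :
    |Q A k x - Q A k y| ≤ (∑ i ∈ Finset.range k, Real.pi * (A : ℝ) ^ i) * |x - y| := by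
  induction k with
  | zero => simp [Q]
  | succ k ih =>
    have e1 : ∀ z, Q A (k + 1) z = Q A k z * |Real.cos (Real.pi * (z * (A : ℝ) ^ k))| := fun z => by
      simp [Q, Finset.prod_range_succ]
    rw [e1, e1, Finset.sum_range_succ]
    set a := |Real.cos (Real.pi * (x * (A : ℝ) ^ k))| with ha
    set b := |Real.cos (Real.pi * (y * (A : ℝ) ^ k))| with hb
    have ha0 : 0 ≤ a := abs_nonneg _
    have ha1 : a ≤ 1 := Real.abs_cos_le_one _
    have hab : |a - b| ≤ Real.pi * (A : ℝ) ^ k * |x - y| := by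
      refine (abs_abs_sub_abs_le_abs_sub _ _).trans ?_
      refine (Real.abs_cos_sub_cos_le _ _).trans ?_
      have e : Real.pi * (x * (A : ℝ) ^ k) - Real.pi * (y * (A : ℝ) ^ k) =
          Real.pi * (A : ℝ) ^ k * (x - y) := by ring
      rw [e, abs_mul, abs_of_nonneg (by positivity)]
    have h0 := Q_nonneg A k y
    have h1 := Q_le_one A k y
    calc |Q A k x * a - Q A k y * b| = |(Q A k x - Q A k y) * a + Q A k y * (a - b)| := by ring_nf
      _ ≤ |(Q A k x - Q A k y) * a| + |Q A k y * (a - b)| := abs_add_le _ _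
      _ = |Q A k x - Q A k y| * a + Q A k y * |a - b| := by
          rw [abs_mul, abs_mul, abs_of_nonneg ha0, abs_of_nonneg h0]
      _ ≤ |Q A k x - Q A k y| * 1 + 1 * |a - b| := by
          gcongr
      _ ≤ _ := by nlinarith

lemma rpow_lip {A : ℕ} (hA : 2 ≤ A) {x y : ℝ} (hx0 : 0 ≤ x) (hx1 : x ≤ 1) (hy0 : 0 ≤ y) (hy1 : y ≤ 1) :
    |(A : ℝ) ^ x - (A : ℝ) ^ y| ≤ (A : ℝ) ^ 2 * Real.log A * |x - y| := by
  wlog hxy : y ≤ x generalizing x y with H
  · have := H hy0 hy1 hx0 hx1 (le_of_not_ge hxy)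
    rw [abs_sub_comm, abs_sub_comm x y]
    exact this
  have hA0 : (0 : ℝ) < A := by positivity
  have hA1 : (1 : ℝ) ≤ A := by exact_mod_cast (by omega : 1 ≤ A)
  have hl : 0 ≤ Real.log A := Real.log_nonneg hA1
  have e1 : (A : ℝ) ^ x = (A : ℝ) ^ y * (A : ℝ) ^ (x - y) := by
    rw [← Real.rpow_add hA0]; ring_nf
  have h1 : (1 : ℝ) ≤ (A : ℝ) ^ (x - y) := Real.one_le_rpow hA1 (by linarith)
  have h2 : (A : ℝ) ^ (x - y) - 1 ≤ (x - y) * Real.log A * A := by
    set t := (x - y) * Real.log A with ht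
    have e2 : (A : ℝ) ^ (x - y) = Real.exp t := by
      rw [Real.rpow_def_of_pos hA0, ht, mul_comm]
    have h3 := Real.add_one_le_exp (-t)
    have h4 : Real.exp (-t) * Real.exp t = 1 := by rw [← Real.exp_add]; simp
    have h5 : 0 < Real.exp t := Real.exp_pos t
    have ht0 : 0 ≤ t := mul_nonneg (by linarith) hl
    have h6 : Real.exp t - 1 ≤ t * Real.exp t := by nlinarith
    have h7 : Real.exp t ≤ A := by
      rw [← e2]
      calc (A : ℝ) ^ (x - y) ≤ (A : ℝ) ^ (1 : ℝ) := Real.rpow_le_rpow_of_exponent_le hA1 (by linarith)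
        _ = A := Real.rpow_one _
    rw [e2]
    nlinarith
  have h8 : (A : ℝ) ^ y ≤ A := by
    calc (A : ℝ) ^ y ≤ (A : ℝ) ^ (1 : ℝ) := Real.rpow_le_rpow_of_exponent_le hA1 hy1
      _ = A := Real.rpow_one _
  have h9 : 0 < (A : ℝ) ^ y := Real.rpow_pos_of_pos hA0 _
  rw [abs_of_nonneg (by linarith : 0 ≤ x - y), e1,
    abs_of_nonneg (by nlinarith)]
  have h10 : 0 ≤ (x - y) * Real.log A * A := by
    have : 0 ≤ x - y := by linarith
    positivity
  calc (A : ℝ) ^ y * (A : ℝ) ^ (x - y) - (A : ℝ) ^ y = (A : ℝ) ^ y * ((A : ℝ) ^ (x - y) - 1) := by ring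
    _ ≤ A * ((x - y) * Real.log A * A) := by
        apply mul_le_mul h8 h2 (by linarith) hA0.le
    _ = _ := by ring

/-- the periodic function -/
noncomputable def ff (A k : ℕ) (x : ℝ) : ℝ := Q A k ((A : ℝ) ^ (Int.fract x))

lemma abs_cos_int (n : ℕ) : |Real.cos (Real.pi * (n : ℝ))| = 1 := by
  rw [mul_comm, Real.cos_nat_mul_pi, abs_pow]
  simp

lemma Q_one (A k : ℕ) : Q A k 1 = 1 := by
  apply Finset.prod_eq_one
  intro i _
  have := abs_cos_int (A ^ i)
  push_cast at this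
  rw [one_mul]
  exact this

lemma Q_self (A k : ℕ) : Q A k A = 1 := by
  apply Finset.prod_eq_one
  intro i _
  have := abs_cos_int (A * A ^ i)
  push_cast at this
  exact this

lemma ff_periodic (A k : ℕ) (x : ℝ) : ff A k (x + 1) = ff A k x := by
  simp [ff]

lemma ff_lip {A : ℕ} (hA : 2 ≤ A) (k : ℕ) : ∃ L : ℝ, ∀ x y, |ff A k x - ff A k y| ≤ L * |x - y| := by
  set L0 := (∑ i ∈ Finset.range k, Real.pi * (A : ℝ) ^ i) * ((A : ℝ) ^ 2 * Real.log A) with hL0
  have hA1 : (1 : ℝ) ≤ A := by exact_mod_cast (by omega : 1 ≤ A)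
  have hl : 0 ≤ Real.log A := Real.log_nonneg hA1
  have hL0n : 0 ≤ L0 := by
    apply mul_nonneg
    · exact Finset.sum_nonneg fun i _ => by positivity
    · positivity
  have hg : ∀ x y : ℝ, 0 ≤ x → x ≤ 1 → 0 ≤ y → y ≤ 1 →
      |Q A k ((A : ℝ) ^ x) - Q A k ((A : ℝ) ^ y)| ≤ L0 * |x - y| := by
    intro x y hx0 hx1 hy0 hy1
    refine (Q_lip A k _ _).trans ?_
    rw [hL0, mul_assoc]
    exact mul_le_mul_of_nonneg_left (rpow_lip hA hx0 hx1 hy0 hy1)
      (Finset.sum_nonneg fun i _ => by positivity)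
  refine ⟨L0 + 1, ?_⟩
  have key : ∀ x y : ℝ, x ≤ y → |ff A k x - ff A k y| ≤ (L0 + 1) * |x - y| := by
    intro x y hxy
    rw [abs_sub_comm x y, abs_of_nonneg (by linarith : 0 ≤ y - x)]
    have hfx0 := Int.fract_nonneg x
    have hfx1 := (Int.fract_lt_one x).le
    have hfy0 := Int.fract_nonneg y
    have hfy1 := (Int.fract_lt_one y).le
    rcases lt_or_ge (y - x) 1 with h | h
    · have hfl : ⌊x⌋ ≤ ⌊y⌋ := Int.floor_mono hxy
      have hfl2 : ⌊y⌋ ≤ ⌊x⌋ + 1 := by
        have : ⌊y⌋ ≤ ⌊x + 1⌋ := Int.floor_mono (by linarith)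
        simpa using this
      have ex : x = ⌊x⌋ + Int.fract x := (Int.floor_add_fract x).symm
      have ey : y = ⌊y⌋ + Int.fract y := (Int.floor_add_fract y).symm
      rcases lt_or_ge ⌊x⌋ ⌊y⌋ with h2 | h2
      · have h3 : ⌊y⌋ = ⌊x⌋ + 1 := by omega
        have h3' : (⌊y⌋ : ℝ) = ⌊x⌋ + 1 := by exact_mod_cast h3
        have e : y - x = (1 - Int.fract x) + Int.fract y := by
          rw [h3'] at ey
          linarith
        have h4 := hg (Int.fract x) 1 hfx0 hfx1 (by norm_num) le_rfl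
        have h5 := hg 0 (Int.fract y) le_rfl (by norm_num) hfy0 hfy1
        rw [Real.rpow_one, Q_self] at h4
        rw [Real.rpow_zero, Q_one] at h5
        rw [abs_sub_comm (Int.fract x) 1, abs_of_nonneg (by linarith : 0 ≤ 1 - Int.fract x)] at h4
        rw [abs_sub_comm 0 (Int.fract y), sub_zero, abs_of_nonneg hfy0] at h5
        have h6 : |ff A k x - ff A k y| ≤ |ff A k x - 1| + |1 - ff A k y| := abs_sub_le _ _ _
        unfold ff at h6 ⊢
        nlinarith
      · have h3 : ⌊y⌋ = ⌊x⌋ := by omega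
        have h3' : (⌊y⌋ : ℝ) = ⌊x⌋ := by exact_mod_cast h3
        have e : y - x = Int.fract y - Int.fract x := by
          rw [h3'] at ey
          linarith
        have h4 := hg (Int.fract x) (Int.fract y) hfx0 hfx1 hfy0 hfy1
        rw [abs_sub_comm (Int.fract x), ← e, abs_of_nonneg (by linarith : 0 ≤ y - x)] at h4
        unfold ff
        nlinarith
    · have h1 := Q_nonneg A k ((A : ℝ) ^ (Int.fract x))
      have h2 := Q_le_one A k ((A : ℝ) ^ (Int.fract x))
      have h3 := Q_nonneg A k ((A : ℝ) ^ (Int.fract y))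
      have h4 := Q_le_one A k ((A : ℝ) ^ (Int.fract y))
      have h5 : |ff A k x - ff A k y| ≤ 1 := by
        unfold ff
        rw [abs_le]
        constructor <;> linarith
      nlinarith
  intro x y
  rcases le_total x y with h | h
  · exact key x y h
  · have := key y x h
    rw [abs_sub_comm, abs_sub_comm x y]
    exact this

lemma integral_ff (A k : ℕ) : ∫ x in (0 : ℝ)..1, ff A k x = ∫ x in (0 : ℝ)..1, Q A k ((A : ℝ) ^ x) := by
  apply intervalIntegral.integral_congr_ae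
  have : ∀ᵐ x : ℝ, x ≠ 1 := by
    rw [ae_iff]
    simp
  filter_upwards [this] with x hx hx2
  rw [uIoc_of_le (by norm_num)] at hx2
  have h1 : Int.fract x = x := Int.fract_eq_self.2 ⟨hx2.1.le, lt_of_le_of_ne hx2.2 hx⟩
  unfold ff
  rw [h1]

/-- one term -/
lemma term_le {A : ℕ} (hA : 2 ≤ A) (k m : ℕ) {z : ℝ} (hz : (A : ℝ) ^ k ≤ z) (hm : z ≤ (A : ℝ) ^ m) :
    ∏ j ∈ Finset.range m, |Real.cos (Real.pi * (z / (A : ℝ) ^ (j + 1)))| ≤
      ff A k (Real.log z / Real.log A) := by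
  have hA0 : (0 : ℝ) < A := by positivity
  have hA1 : (1 : ℝ) < A := by exact_mod_cast (by omega : 1 < A)
  have hl : 0 < Real.log A := Real.log_pos hA1
  have hz0 : 0 < z := lt_of_lt_of_le (by positivity) hz
  set w := Real.log z / Real.log A with hw
  have hzw : z = (A : ℝ) ^ w := by
    rw [Real.rpow_def_of_pos hA0, hw, mul_div_cancel₀ _ hl.ne', Real.exp_log hz0]
  have hkw : (k : ℝ) ≤ w := by
    rw [hw, le_div_iff₀ hl, ← Real.log_pow]
    exact Real.log_le_log (by positivity) hz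
  have hwm : w ≤ m := by
    rw [hw, div_le_iff₀ hl, ← Real.log_pow]
    exact Real.log_le_log hz0 hm
  have hw0 : 0 ≤ w := (Nat.cast_nonneg k).trans hkw
  obtain ⟨J, hJ⟩ : ∃ J : ℕ, (J : ℤ) = ⌊w⌋ := ⟨⌊w⌋.toNat, Int.toNat_of_nonneg (Int.floor_nonneg.2 hw0)⟩
  have hJr : (J : ℝ) = (⌊w⌋ : ℝ) := by exact_mod_cast hJ
  have hkJ : k ≤ J := by
    have : (k : ℤ) ≤ ⌊w⌋ := Int.le_floor.2 (by exact_mod_cast hkw)
    omega
  have hJm : J ≤ m := by
    have h1 : (J : ℝ) ≤ w := by rw [hJr]; exact Int.floor_le w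
    exact_mod_cast h1.trans hwm
  set τ := (A : ℝ) ^ (Int.fract w) with hτ
  have hzt : z = τ * (A : ℝ) ^ J := by
    rw [hzw, hτ, ← Real.rpow_natCast, ← Real.rpow_add hA0, hJr, Int.fract_add_floor]
  set g : ℕ → ℝ := fun j => |Real.cos (Real.pi * (z / (A : ℝ) ^ (j + 1)))| with hg
  have hg0 : ∀ j, 0 ≤ g j := fun j => abs_nonneg _
  have hg1 : ∀ j, g j ≤ 1 := fun j => Real.abs_cos_le_one _
  have hff : ff A k w = ∏ i ∈ Finset.range k, g (J - 1 - i) := by
    unfold ff Q
    refine Finset.prod_congr rfl fun i hi => ?_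
    have hi' : i < k := Finset.mem_range.1 hi
    simp only [hg]
    congr 3
    rw [hzt]
    have e : J - 1 - i + 1 = J - i := by omega
    rw [e, ← hτ]
    have e2 : (A : ℝ) ^ J = (A : ℝ) ^ i * (A : ℝ) ^ (J - i) := by
      rw [← pow_add]; congr 1; omega
    rw [e2]
    field_simp
  rw [hff]
  set s := (Finset.range k).image (fun i => J - 1 - i) with hs
  have hsub : s ⊆ Finset.range m := by
    intro j hj
    rw [hs, Finset.mem_image] at hj
    obtain ⟨i, hi, rfl⟩ := hj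
    rw [Finset.mem_range] at hi ⊢
    omega
  have himg : ∏ j ∈ s, g j = ∏ i ∈ Finset.range k, g (J - 1 - i) := by
    rw [hs, Finset.prod_image]
    intro i hi j hj hij
    simp only [Finset.coe_range, mem_Iio] at hi hj
    simp only at hij
    omega
  rw [← himg, ← Finset.prod_sdiff hsub]
  calc (∏ x ∈ Finset.range m \ s, g x) * ∏ x ∈ s, g x ≤ 1 * ∏ x ∈ s, g x := by
        apply mul_le_mul_of_nonneg_right _ (Finset.prod_nonneg fun i _ => hg0 i)
        exact Finset.prod_le_one (fun i _ => hg0 i) fun i _ => hg1 i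
    _ = _ := one_mul _

theorem COS_proved (h1 : S_INT) (h2 : S_ROT) : S_COS := by
  intro A β c₁ c₂ η hA hβ hirr hc₁ hη
  have hA0 : (0 : ℝ) < A := by positivity
  have hA1 : (1 : ℝ) < A := by exact_mod_cast (by omega : 1 < A)
  obtain ⟨k, hk⟩ := h1 A hA (η / 4) (by positivity)
  obtain ⟨L, hL⟩ := ff_lip hA k
  obtain ⟨S₁, hS₁⟩ := h2 (ff A k) L _ hirr (ff_periodic A k) hL (η / 4) (by positivity)
  obtain ⟨n₁, hn₁⟩ := pow_unbounded_of_one_lt ((A : ℝ) ^ k / c₁) hβ
  obtain ⟨S₂, hS₂⟩ := exists_nat_ge (2 * (n₁ : ℝ) / η)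
  refine ⟨max S₁ S₂, fun S hS => ?_⟩
  have hSS₁ : S₁ ≤ S := (le_max_left _ _).trans hS
  have hSS₂ : S₂ ≤ S := (le_max_right _ _).trans hS
  obtain ⟨m₀, hm₀⟩ := pow_unbounded_of_one_lt (c₂ * β ^ S) hA1
  refine ⟨m₀, fun m hm u hu1 hu2 => ?_⟩
  have hu0 : 0 < u := lt_of_lt_of_le hc₁ hu1
  have hβ0 : 0 < β := by linarith
  have hn1S : (n₁ : ℝ) ≤ η / 2 * S := by
    have h3 : (S₂ : ℝ) ≤ S := by exact_mod_cast hSS₂
    have h4 := hS₂.trans h3
    rw [div_le_iff₀ hη] at h4
    linarith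
  have hrot := hS₁ S hSS₁ (Real.log u / Real.log A)
  rw [integral_ff] at hrot
  have hbound : ∀ n ∈ Finset.range S, ∏ j ∈ Finset.range m,
      |Real.cos (Real.pi * (u * β ^ n / (A : ℝ) ^ (j + 1)))| ≤
      (if n < n₁ then 1 else 0) + ff A k (Real.log u / Real.log A + n * (Real.log β / Real.log A)) := by
    intro n hn
    have hn' := Finset.mem_range.1 hn
    split_ifs with hlt
    · have h3 : ∏ j ∈ Finset.range m, |Real.cos (Real.pi * (u * β ^ n / (A : ℝ) ^ (j + 1)))| ≤ 1 :=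
        Finset.prod_le_one (fun _ _ => abs_nonneg _) fun _ _ => Real.abs_cos_le_one _
      have h4 : 0 ≤ ff A k (Real.log u / Real.log A + n * (Real.log β / Real.log A)) := Q_nonneg _ _ _
      linarith
    · rw [zero_add]
      have hz : (A : ℝ) ^ k ≤ u * β ^ n := by
        have h3 : β ^ n₁ ≤ β ^ n := pow_le_pow_right₀ hβ.le (by omega)
        have h4 : (A : ℝ) ^ k / c₁ ≤ β ^ n := hn₁.le.trans h3
        rw [div_le_iff₀ hc₁] at h4
        calc (A : ℝ) ^ k ≤ β ^ n * c₁ := h4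
          _ ≤ β ^ n * u := mul_le_mul_of_nonneg_left hu1 (by positivity)
          _ = _ := mul_comm _ _
      have hzm : u * β ^ n ≤ (A : ℝ) ^ m := by
        calc u * β ^ n ≤ c₂ * β ^ S := by
              apply mul_le_mul hu2 (pow_le_pow_right₀ hβ.le hn'.le) (by positivity) (hu0.le.trans hu2)
          _ ≤ (A : ℝ) ^ m₀ := hm₀.le
          _ ≤ (A : ℝ) ^ m := pow_le_pow_right₀ hA1.le hm
      have h3 := term_le hA k m hz hzm
      have e : Real.log (u * β ^ n) / Real.log A =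
          Real.log u / Real.log A + n * (Real.log β / Real.log A) := by
        rw [Real.log_mul hu0.ne' (by positivity), Real.log_pow]
        ring
      rwa [e] at h3
  calc _ ≤ ∑ n ∈ Finset.range S, ((if n < n₁ then (1 : ℝ) else 0) +
        ff A k (Real.log u / Real.log A + n * (Real.log β / Real.log A))) := Finset.sum_le_sum hbound
    _ = ∑ n ∈ Finset.range S, (if n < n₁ then (1 : ℝ) else 0) +
        ∑ n ∈ Finset.range S, ff A k (Real.log u / Real.log A + n * (Real.log β / Real.log A)) :=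
        Finset.sum_add_distrib
    _ ≤ n₁ + S * (η / 4 + η / 4) := by
        apply add_le_add
        · rw [← Finset.sum_filter, Finset.sum_const, nsmul_eq_mul, mul_one]
          have : ((Finset.range S).filter (fun n => n < n₁)).card ≤ n₁ := by
            calc _ ≤ (Finset.range n₁).card := Finset.card_le_card fun x hx => by
                  rw [Finset.mem_filter] at hx
                  exact Finset.mem_range.2 hx.2
              _ = n₁ := Finset.card_range _
          exact_mod_cast this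
        · refine hrot.trans ?_
          apply mul_le_mul_of_nonneg_left _ (Nat.cast_nonneg _)
          linarith
    _ ≤ η * S := by linarith

end Pool.Agent.H76.MZ
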