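import Pool.Agent.H30.MZ.Stm

set_option autoImplicit false

/-! Part FEJ: small Weyl sums imply density. -/

namespace Pool.Agent.H76.MZ

open Set Filter Topology Pool.Agent.H30.MZ

lemma cos_pow_eq (N : ℕ) (x : ℝ) :
    (((Real.cos (Real.pi * x)) ^ (2 * N) : ℝ) : ℂ) * 4 ^ N =
      ∑ i ∈ Finset.range (2 * N + 1), ((2 * N).choose i : ℂ) *
        Complex.exp (2 * Real.pi * Complex.I * (((i : ℂ) - N) * x)) := by
  have h1 : ((Real.cos (Real.pi * x) : ℝ) : ℂ) * 2 =
      Complex.exp (Real.pi * x * Complex.I) + Complex.exp (-(Real.pi * x * Complex.I)) := by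
    rw [Complex.ofReal_cos, Complex.cos]
    push_cast
    ring_nf
  have h2 : (((Real.cos (Real.pi * x)) ^ (2 * N) : ℝ) : ℂ) * 4 ^ N =
      (Complex.exp (Real.pi * x * Complex.I) + Complex.exp (-(Real.pi * x * Complex.I))) ^ (2 * N) := by
    rw [← h1, mul_pow]
    push_cast
    congr 1
    rw [pow_mul]
    norm_num
  rw [h2, add_pow]
  refine Finset.sum_congr rfl fun i hi => ?_
  rw [← Complex.exp_nat_mul, ← Complex.exp_nat_mul, ← Complex.exp_add, mul_comm]
  congr 2
  have hi' : i ≤ 2 * N := by simpa [Nat.lt_succ_iff] using hi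
  rw [Nat.cast_sub hi']
  push_cast
  ring

lemma norm_sum_shift (S : ℕ) (f : ℕ → ℝ) (v c : ℝ) :
    ‖∑ t ∈ Finset.range S, Complex.exp (2 * Real.pi * Complex.I * (c * ((f t - v : ℝ) : ℂ)))‖ =
      ‖∑ t ∈ Finset.range S, Complex.exp (2 * Real.pi * Complex.I * (c * (f t : ℂ)))‖ := by
  have : ∀ t, Complex.exp (2 * Real.pi * Complex.I * (c * ((f t - v : ℝ) : ℂ))) =
      Complex.exp (((-(2 * Real.pi * c * v) : ℝ) : ℂ) * Complex.I) *
        Complex.exp (2 * Real.pi * Complex.I * (c * (f t : ℂ))) := by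
    intro t
    rw [← Complex.exp_add]
    congr 1
    push_cast
    ring
  simp_rw [this]
  rw [← Finset.mul_sum, norm_mul, Complex.norm_exp_ofReal_mul_I, one_mul]

lemma norm_sum_neg (S : ℕ) (f : ℕ → ℝ) (c : ℝ) :
    ‖∑ t ∈ Finset.range S, Complex.exp (2 * Real.pi * Complex.I * (((-c : ℝ) : ℂ) * (f t : ℂ)))‖ =
      ‖∑ t ∈ Finset.range S, Complex.exp (2 * Real.pi * Complex.I * (c * (f t : ℂ)))‖ := by
  rw [← Complex.norm_conj, map_sum]
  congr 1
  refine Finset.sum_congr rfl fun t _ => ?_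
  rw [← Complex.exp_conj]
  congr 1
  have h2 : (starRingEnd ℂ) 2 = 2 := Complex.conj_ofNat 2
  simp [Complex.conj_ofReal, Complex.conj_I, h2]

lemma abs_cos_le {x δ : ℝ} (hδ : 0 < δ) (hδ1 : δ ≤ 1 / 2) (h : ∀ k : ℤ, δ ≤ |x - k|) :
    |Real.cos (Real.pi * x)| ≤ Real.cos (Real.pi * δ) := by
  have h1 := h (round x)
  have h2 := abs_sub_round x
  have e : Real.pi * x = Real.pi * (x - round x) + (round x : ℤ) * Real.pi := by ring
  rw [e, Real.cos_add_int_mul_pi, abs_mul]
  have h3 : |((-1 : ℝ)) ^ (round x)| = 1 := by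
    rw [abs_zpow]; simp
  rw [h3, one_mul, ← Real.cos_abs (Real.pi * (x - round x)), abs_mul, abs_of_pos Real.pi_pos]
  have hp := Real.pi_pos
  rw [abs_of_nonneg]
  · apply Real.cos_le_cos_of_nonneg_of_le_pi
    · positivity
    · nlinarith
    · exact mul_le_mul_of_nonneg_left h1 hp.le
  · apply Real.cos_nonneg_of_mem_Icc
    constructor
    · have : 0 ≤ Real.pi * |x - round x| := by positivity
      linarith
    · nlinarith

lemma exists_N {c : ℝ} (hc0 : 0 ≤ c) (hc : c < 1) : ∃ N : ℕ, 2 * (2 * (N : ℝ) + 1) * c ^ (2 * N) < 1 := by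
  have h1 : Tendsto (fun n : ℕ => (n : ℝ) * (c ^ 2) ^ n) atTop (𝓝 0) :=
    tendsto_self_mul_const_pow_of_lt_one (by positivity) (by nlinarith)
  have h2 : Tendsto (fun n : ℕ => (c ^ 2) ^ n) atTop (𝓝 0) :=
    tendsto_pow_atTop_nhds_zero_of_lt_one (by positivity) (by nlinarith)
  have h3 : Tendsto (fun n : ℕ => 4 * ((n : ℝ) * (c ^ 2) ^ n) + 2 * (c ^ 2) ^ n) atTop (𝓝 (4 * 0 + 2 * 0)) :=
    (h1.const_mul 4).add (h2.const_mul 2)
  have h4 := (h3.eventually (Iio_mem_nhds (show (4 * 0 + 2 * 0 : ℝ) < 1 by norm_num))).exists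
  obtain ⟨N, hN⟩ := h4
  have hN : 4 * ((N : ℝ) * (c ^ 2) ^ N) + 2 * (c ^ 2) ^ N < 1 := hN
  refine ⟨N, ?_⟩
  rw [pow_mul]
  nlinarith

theorem FEJ_proved : S_FEJ := by
  intro δ hδ
  set δ' := min δ (1 / 2) with hδ'
  have hd0 : 0 < δ' := lt_min hδ (by norm_num)
  have hd1 : δ' ≤ 1 / 2 := min_le_right _ _
  set c := Real.cos (Real.pi * δ') with hc
  have hp := Real.pi_pos
  have hc0 : 0 ≤ c := Real.cos_nonneg_of_mem_Icc ⟨by nlinarith, by nlinarith⟩
  have hc1 : c < 1 := by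
    rw [hc, ← Real.cos_zero]
    exact Real.cos_lt_cos_of_nonneg_of_le_pi le_rfl (by nlinarith) (by positivity)
  obtain ⟨N, hN⟩ := exists_N hc0 hc1
  refine ⟨N, 1 / (2 * (2 * N + 1)), by positivity, ?_⟩
  intro S f hS hw v
  by_contra hcon
  push Not at hcon
  have hS' : (0 : ℝ) < S := by exact_mod_cast hS
  have hN0 : (0 : ℝ) < 2 * N + 1 := by positivity
  -- upper bound
  have hup : ∑ t ∈ Finset.range S, (Real.cos (Real.pi * (f t - v))) ^ (2 * N) ≤ S * c ^ (2 * N) := by
    calc ∑ t ∈ Finset.range S, (Real.cos (Real.pi * (f t - v))) ^ (2 * N)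
        ≤ ∑ t ∈ Finset.range S, c ^ (2 * N) := by
          refine Finset.sum_le_sum fun t ht => ?_
          have h1 : |Real.cos (Real.pi * (f t - v))| ≤ c :=
            abs_cos_le hd0 hd1 fun k => (min_le_left _ _).trans
              (hcon t (Finset.mem_range.1 ht) k)
          rw [pow_mul, pow_mul, ← sq_abs]
          exact pow_le_pow_left₀ (by positivity) (pow_le_pow_left₀ (abs_nonneg _) h1 2) N
      _ = S * c ^ (2 * N) := by simp
  -- expansion
  have hex : ((∑ t ∈ Finset.range S, (Real.cos (Real.pi * (f t - v))) ^ (2 * N) : ℝ) : ℂ) * 4 ^ N =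
      ∑ i ∈ Finset.range (2 * N + 1), ((2 * N).choose i : ℂ) *
        ∑ t ∈ Finset.range S, Complex.exp (2 * Real.pi * Complex.I * (((i : ℂ) - N) * ((f t - v : ℝ) : ℂ))) := by
    push_cast
    rw [Finset.sum_mul]
    simp_rw [Finset.mul_sum]
    rw [Finset.sum_comm]
    refine Finset.sum_congr rfl fun t _ => ?_
    have := cos_pow_eq N (f t - v)
    push_cast at this
    exact this
  set G : ℕ → ℂ := fun i => ∑ t ∈ Finset.range S,
    Complex.exp (2 * Real.pi * Complex.I * (((i : ℂ) - N) * ((f t - v : ℝ) : ℂ))) with hG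
  have hGN : G N = S := by
    simp [hG]
  have hGi : ∀ i ∈ Finset.range (2 * N + 1), i ≠ N → ‖G i‖ ≤ 1 / (2 * (2 * N + 1)) * S := by
    intro i hi hne
    have hi' : i ≤ 2 * N := by simpa [Nat.lt_succ_iff] using hi
    have e1 : ‖G i‖ = ‖∑ t ∈ Finset.range S, Complex.exp (2 * Real.pi * Complex.I *
        (((i - N : ℝ) : ℂ) * (f t : ℂ)))‖ := by
      rw [← norm_sum_shift S f v (i - N : ℝ)]
      simp only [hG]
      push_cast
      rfl
    rw [e1]
    rcases lt_or_gt_of_ne hne with h | h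
    · have e2 : (i - N : ℝ) = -((N - i : ℕ) : ℝ) := by
        rw [Nat.cast_sub h.le]; ring
      rw [e2, norm_sum_neg]
      exact_mod_cast hw (N - i) (by omega) (by omega)
    · have e2 : (i - N : ℝ) = ((i - N : ℕ) : ℝ) := by
        rw [Nat.cast_sub h.le]
      rw [e2]
      exact_mod_cast hw (i - N) (by omega) (by omega)
  -- lower bound
  have hsplit : (2 * N).choose N * (S : ℂ) =
      ((∑ t ∈ Finset.range S, (Real.cos (Real.pi * (f t - v))) ^ (2 * N) : ℝ) : ℂ) * 4 ^ N -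
      ∑ i ∈ (Finset.range (2 * N + 1)).erase N, ((2 * N).choose i : ℂ) * G i := by
    rw [hex]
    have hm : N ∈ Finset.range (2 * N + 1) := by simp; omega
    rw [← Finset.add_sum_erase _ _ hm]
    change _ = ((2 * N).choose N : ℂ) * G N + _ - _
    rw [hGN]
    ring
  have hnorm : ((2 * N).choose N : ℝ) * S ≤ (S * c ^ (2 * N)) * 4 ^ N +
      4 ^ N * (1 / (2 * (2 * N + 1)) * S) := by
    have h1 : ((2 * N).choose N : ℝ) * S = ‖((2 * N).choose N : ℂ) * (S : ℂ)‖ := by
      rw [norm_mul, Complex.norm_natCast, Complex.norm_natCast]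
    rw [h1, hsplit]
    refine (norm_sub_le _ _).trans (add_le_add ?_ ?_)
    · rw [norm_mul, Complex.norm_real, norm_pow]
      have h4 : ‖(4 : ℂ)‖ = 4 := by norm_num
      rw [h4]
      apply mul_le_mul_of_nonneg_right _ (by positivity)
      rw [Real.norm_of_nonneg]
      · exact hup
      · exact Finset.sum_nonneg fun t _ => by rw [pow_mul]; positivity
    · refine (norm_sum_le _ _).trans ?_
      calc ∑ i ∈ (Finset.range (2 * N + 1)).erase N, ‖((2 * N).choose i : ℂ) * G i‖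
          ≤ ∑ i ∈ (Finset.range (2 * N + 1)).erase N, ((2 * N).choose i : ℝ) * (1 / (2 * (2 * N + 1)) * S) := by
            refine Finset.sum_le_sum fun i hi => ?_
            rw [norm_mul, Complex.norm_natCast]
            exact mul_le_mul_of_nonneg_left (hGi i (Finset.mem_of_mem_erase hi) (Finset.ne_of_mem_erase hi))
              (by positivity)
        _ ≤ ∑ i ∈ Finset.range (2 * N + 1), ((2 * N).choose i : ℝ) * (1 / (2 * (2 * N + 1)) * S) := by
            apply Finset.sum_le_sum_of_subset_of_nonneg (Finset.erase_subset _ _)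
            intro i _ _
            positivity
        _ = 4 ^ N * (1 / (2 * (2 * N + 1)) * S) := by
            rw [← Finset.sum_mul]
            congr 1
            have := Nat.sum_range_choose (2 * N)
            have h5 : (2 : ℕ) ^ (2 * N) = 4 ^ N := by rw [pow_mul]; norm_num
            rw [h5] at this
            exact_mod_cast this
  have hcb : (4 : ℝ) ^ N ≤ (2 * N + 1) * ((2 * N).choose N : ℝ) := by
    have := Nat.four_pow_le_two_mul_add_one_mul_central_binom N
    exact_mod_cast this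
  have h4 : (0 : ℝ) < 4 ^ N := by positivity
  have h6 : (4 : ℝ) ^ N * S ≤ (2 * N + 1) * ((S * c ^ (2 * N)) * 4 ^ N +
      4 ^ N * (1 / (2 * (2 * N + 1)) * S)) := by
    calc (4 : ℝ) ^ N * S ≤ (2 * N + 1) * ((2 * N).choose N : ℝ) * S :=
          mul_le_mul_of_nonneg_right hcb hS'.le
      _ = (2 * N + 1) * (((2 * N).choose N : ℝ) * S) := by ring
      _ ≤ _ := mul_le_mul_of_nonneg_left hnorm hN0.le
  have h7 : (2 * (N : ℝ) + 1) * ((S * c ^ (2 * N)) * 4 ^ N + 4 ^ N * (1 / (2 * (2 * N + 1)) * S)) =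
      4 ^ N * S * ((2 * N + 1) * c ^ (2 * N) + 1 / 2) := by
    field_simp
  rw [h7] at h6
  have h8 : (2 * (N : ℝ) + 1) * c ^ (2 * N) + 1 / 2 < 1 := by linarith
  have h9 : (0 : ℝ) < 4 ^ N * S := by positivity
  nlinarith

end Pool.Agent.H76.MZ
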