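import Pool.Agent.H30.MZ.Stm

set_option autoImplicit false

/-! Part WIN: the window lemma. -/

namespace Pool.Agent.H76.MZ

open Set Filter Topology Pool.Agent.H30.MZ

/-- `e (x)` -/
noncomputable def ex (x : ℝ) : ℂ := Complex.exp (2 * Real.pi * Complex.I * (x : ℂ))

lemma ex_add (x y : ℝ) : ex (x + y) = ex x * ex y := by
  unfold ex
  rw [← Complex.exp_add]
  congr 1
  push_cast
  ring

lemma norm_ex (x : ℝ) : ‖ex x‖ = 1 := by
  unfold ex
  have : 2 * Real.pi * Complex.I * (x : ℂ) = ((2 * Real.pi * x : ℝ) : ℂ) * Complex.I := by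
    push_cast
    ring
  rw [this, Complex.norm_exp_ofReal_mul_I]

lemma conj_ex (x : ℝ) : (starRingEnd ℂ) (ex x) = ex (-x) := by
  unfold ex
  rw [← Complex.exp_conj]
  congr 1
  have h2 : (starRingEnd ℂ) 2 = 2 := Complex.conj_ofNat 2
  simp [Complex.conj_ofReal, Complex.conj_I, h2]

lemma ex_sum {ι : Type} (s : Finset ι) (f : ι → ℝ) : ex (∑ i ∈ s, f i) = ∏ i ∈ s, ex (f i) := by
  classical
  induction s using Finset.induction_on with
  | empty => simp [ex]
  | insert a s ha ih => rw [Finset.sum_insert ha, Finset.prod_insert ha, ex_add, ih]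

lemma norm_one_add_ex (x : ℝ) : ‖1 + ex x‖ = 2 * |Real.cos (Real.pi * x)| := by
  have h1 : 1 + ex x = ex (x / 2) * ((2 * Real.cos (Real.pi * x) : ℝ) : ℂ) := by
    have e1 : ex x = ex (x / 2) * ex (x / 2) := by rw [← ex_add]; ring_nf
    have e2 : (1 : ℂ) = ex (x / 2) * ex (-(x / 2)) := by
      rw [← ex_add]; simp [ex]
    have e3 : ((2 * Real.cos (Real.pi * x) : ℝ) : ℂ) = ex (x / 2) + ex (-(x / 2)) := by
      push_cast
      rw [Complex.two_cos]
      unfold ex
      push_cast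
      congr 2 <;> ring
    rw [e3, mul_add, ← e1, ← e2, add_comm]
  rw [h1, norm_mul, norm_ex, one_mul, Complex.norm_real, Real.norm_eq_abs, abs_mul]
  norm_num

/-- the number `∑_j z_j A^(-j-1)` -/
noncomputable def XX (A m : ℕ) (z : Fin m → Bool) : ℝ :=
  ∑ j : Fin m, (if z j then (1 : ℝ) else 0) / (A : ℝ) ^ ((j : ℕ) + 1)

lemma sum_z (A m : ℕ) (U : ℝ) : ‖∑ z : Fin m → Bool, ex (U * XX A m z)‖ =
    2 ^ m * ∏ j ∈ Finset.range m, |Real.cos (Real.pi * (U / (A : ℝ) ^ (j + 1)))| := by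
  have h1 : ∑ z : Fin m → Bool, ex (U * XX A m z) =
      ∏ j : Fin m, (1 + ex (U / (A : ℝ) ^ ((j : ℕ) + 1))) := by
    have h2 : ∀ j : Fin m, (1 + ex (U / (A : ℝ) ^ ((j : ℕ) + 1))) =
        ∑ b : Bool, ex (U * ((if b then (1 : ℝ) else 0) / (A : ℝ) ^ ((j : ℕ) + 1))) := by
      intro j
      rw [Fintype.sum_bool]
      simp only [if_true, Bool.false_eq_true, if_false, zero_div, mul_zero]
      have : ex 0 = 1 := by simp [ex]
      rw [this, add_comm, mul_one_div]
    rw [Finset.prod_congr rfl fun j _ => h2 j, Finset.prod_univ_sum]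
    rw [Fintype.piFinset_univ]
    refine Finset.sum_congr rfl fun z _ => ?_
    rw [XX, Finset.mul_sum, ex_sum]
  rw [h1, norm_prod, Finset.prod_congr rfl fun j _ => norm_one_add_ex _,
    Finset.prod_mul_distrib, Finset.prod_const, Finset.card_univ, Fintype.card_fin,
    Finset.prod_range]

/-- the second moment -/
lemma second_moment (A m S : ℕ) (φ c : ℕ → ℝ) :
    ∑ z : Fin m → Bool, ‖∑ t ∈ Finset.range S, ex (φ t + c t * XX A m z)‖ ^ 2 ≤
      2 ^ m * ∑ t ∈ Finset.range S, ∑ t' ∈ Finset.range S,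
        ∏ j ∈ Finset.range m, |Real.cos (Real.pi * ((c t - c t') / (A : ℝ) ^ (j + 1)))| := by
  have h1 : ∀ z : Fin m → Bool, ((‖∑ t ∈ Finset.range S, ex (φ t + c t * XX A m z)‖ ^ 2 : ℝ) : ℂ) =
      ∑ t ∈ Finset.range S, ∑ t' ∈ Finset.range S,
        ex (φ t - φ t') * ex ((c t - c t') * XX A m z) := by
    intro z
    have : ((‖∑ t ∈ Finset.range S, ex (φ t + c t * XX A m z)‖ ^ 2 : ℝ) : ℂ) =
        (∑ t ∈ Finset.range S, ex (φ t + c t * XX A m z)) *
          (starRingEnd ℂ) (∑ t ∈ Finset.range S, ex (φ t + c t * XX A m z)) := by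
      rw [Complex.mul_conj, Complex.normSq_eq_norm_sq]
    rw [this, map_sum, Finset.sum_mul_sum]
    refine Finset.sum_congr rfl fun t _ => Finset.sum_congr rfl fun t' _ => ?_
    rw [conj_ex, ← ex_add, ← ex_add]
    congr 1
    ring
  have h2 : ((∑ z : Fin m → Bool, ‖∑ t ∈ Finset.range S, ex (φ t + c t * XX A m z)‖ ^ 2 : ℝ) : ℂ) =
      ∑ t ∈ Finset.range S, ∑ t' ∈ Finset.range S,
        ex (φ t - φ t') * ∑ z : Fin m → Bool, ex ((c t - c t') * XX A m z) := by
    rw [Complex.ofReal_sum, Finset.sum_congr rfl fun z _ => h1 z, Finset.sum_comm]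
    refine Finset.sum_congr rfl fun t _ => ?_
    rw [Finset.sum_comm]
    refine Finset.sum_congr rfl fun t' _ => ?_
    rw [Finset.mul_sum]
  have h3 : ∑ z : Fin m → Bool, ‖∑ t ∈ Finset.range S, ex (φ t + c t * XX A m z)‖ ^ 2 =
      ‖((∑ z : Fin m → Bool, ‖∑ t ∈ Finset.range S, ex (φ t + c t * XX A m z)‖ ^ 2 : ℝ) : ℂ)‖ := by
    rw [Complex.norm_real, Real.norm_of_nonneg]
    exact Finset.sum_nonneg fun z _ => by positivity
  rw [h3, h2, Finset.mul_sum]
  refine (norm_sum_le _ _).trans (Finset.sum_le_sum fun t _ => ?_)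
  rw [Finset.mul_sum]
  refine (norm_sum_le _ _).trans (Finset.sum_le_sum fun t' _ => ?_)
  rw [norm_mul, norm_ex, one_mul, sum_z]

lemma one_le_aux (s : Finset ℕ) (g t : ℕ) (c : ℝ) (hc : 0 ≤ c) :
    ∑ t' ∈ s, (if t' + g = t then c else 0) ≤ c := by
  rw [← Finset.sum_filter, Finset.sum_const, nsmul_eq_mul]
  have h : (s.filter (fun t' => t' + g = t)).card ≤ 1 := by
    rw [Finset.card_le_one]
    intro a ha b hb
    rw [Finset.mem_filter] at ha hb
    omega
  have h' : ((s.filter (fun t' => t' + g = t)).card : ℝ) ≤ 1 := by exact_mod_cast h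
  nlinarith

/-- summation over pairs -/
lemma pair_sum (S : ℕ) (P : ℕ → ℕ → ℝ) (p : ℕ → ℕ → ℝ) (E : ℝ) (hE : 0 ≤ E)
    (hp : ∀ g t, 0 ≤ p g t) (h0 : ∀ t, P t t ≤ 1) (h1 : ∀ t g, 1 ≤ g → P (t + g) t = p g (t + g))
    (h2 : ∀ t g, 1 ≤ g → P t (t + g) = p g (t + g))
    (h3 : ∀ g, 1 ≤ g → ∑ t ∈ Finset.range S, p g t ≤ E) :
    ∑ t ∈ Finset.range S, ∑ t' ∈ Finset.range S, P t t' ≤ S + 2 * (S * E) := by
  have hb : ∀ t ∈ Finset.range S, ∀ t' ∈ Finset.range S, P t t' ≤ (if t = t' then 1 else 0) +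
      ∑ g ∈ Finset.Ico 1 S, ((if t' + g = t then p g t else 0) + (if t + g = t' then p g t' else 0)) := by
    intro t ht t' ht'
    have ht := Finset.mem_range.1 ht
    have ht' := Finset.mem_range.1 ht'
    have hnn : ∀ g ∈ Finset.Ico 1 S, 0 ≤ ((if t' + g = t then p g t else 0) +
        (if t + g = t' then p g t' else 0)) := by
      intro g _
      have := hp g t
      have := hp g t'
      split_ifs <;> linarith
    rcases lt_trichotomy t t' with h | h | h
    · rw [if_neg h.ne, zero_add]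
      have hg : t' - t ∈ Finset.Ico 1 S := by
        rw [Finset.mem_Ico]; omega
      refine le_trans ?_ (Finset.single_le_sum hnn hg)
      have e : t + (t' - t) = t' := by omega
      have e2 : ¬ (t' + (t' - t) = t) := by omega
      have h4 := h2 t (t' - t) (by omega)
      rw [e] at h4
      simp only [e, if_true, if_neg e2, zero_add]
      exact h4.le
    · subst h
      have := h0 t
      have h5 := Finset.sum_nonneg hnn
      simp only [if_true]
      linarith
    · rw [if_neg h.ne', zero_add]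
      have hg : t - t' ∈ Finset.Ico 1 S := by
        rw [Finset.mem_Ico]; omega
      refine le_trans ?_ (Finset.single_le_sum hnn hg)
      have e : t' + (t - t') = t := by omega
      have e2 : ¬ (t + (t - t') = t') := by omega
      have h4 := h1 t' (t - t') (by omega)
      rw [e] at h4
      simp only [e, if_true, if_neg e2, add_zero]
      exact h4.le
  calc ∑ t ∈ Finset.range S, ∑ t' ∈ Finset.range S, P t t'
      ≤ ∑ t ∈ Finset.range S, ∑ t' ∈ Finset.range S, ((if t = t' then 1 else 0) +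
      ∑ g ∈ Finset.Ico 1 S, ((if t' + g = t then p g t else 0) + (if t + g = t' then p g t' else 0))) :=
        Finset.sum_le_sum fun t ht => Finset.sum_le_sum fun t' ht' => hb t ht t' ht'
    _ = (∑ t ∈ Finset.range S, ∑ t' ∈ Finset.range S, (if t = t' then (1 : ℝ) else 0)) +
        ((∑ g ∈ Finset.Ico 1 S, ∑ t ∈ Finset.range S, ∑ t' ∈ Finset.range S, (if t' + g = t then p g t else 0)) +
        (∑ g ∈ Finset.Ico 1 S, ∑ t' ∈ Finset.range S, ∑ t ∈ Finset.range S, (if t + g = t' then p g t' else 0))) := by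
        have c1 : ∀ F : ℕ → ℕ → ℕ → ℝ, ∑ t ∈ Finset.range S, ∑ t' ∈ Finset.range S, ∑ g ∈ Finset.Ico 1 S, F g t t' =
            ∑ g ∈ Finset.Ico 1 S, ∑ t ∈ Finset.range S, ∑ t' ∈ Finset.range S, F g t t' := by
          intro F
          rw [Finset.sum_congr rfl fun t _ => Finset.sum_comm]
          rw [Finset.sum_comm]
        simp_rw [Finset.sum_add_distrib]
        rw [c1 (fun g t t' => if t' + g = t then p g t else 0),
          c1 (fun g t t' => if t + g = t' then p g t' else 0)]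
        congr 2
        refine Finset.sum_congr rfl fun g _ => ?_
        rw [Finset.sum_comm]
    _ ≤ S + ((∑ g ∈ Finset.Ico 1 S, E) + (∑ g ∈ Finset.Ico 1 S, E)) := by
        refine add_le_add ?_ (add_le_add ?_ ?_)
        · have e3 : ∀ t ∈ Finset.range S, ∑ t' ∈ Finset.range S, (if t = t' then (1 : ℝ) else 0) = 1 := by
            intro t ht
            rw [Finset.sum_ite_eq, if_pos ht]
          rw [Finset.sum_congr rfl e3]
          simp
        · refine Finset.sum_le_sum fun g hg => ?_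
          refine le_trans (Finset.sum_le_sum fun t _ => one_le_aux _ g t _ (hp g t)) ?_
          exact h3 g (Finset.mem_Ico.1 hg).1
        · refine Finset.sum_le_sum fun g hg => ?_
          refine le_trans (Finset.sum_le_sum fun t _ => one_le_aux _ g t _ (hp g t)) ?_
          exact h3 g (Finset.mem_Ico.1 hg).1
    _ ≤ _ := by
        rw [Finset.sum_const, nsmul_eq_mul, Nat.card_Ico]
        have h4 : ((S - 1 : ℕ) : ℝ) ≤ S := by exact_mod_cast Nat.sub_le S 1
        nlinarith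

/-- the set of words with small Weyl sums -/
theorem WIN_proved (h1 : S_COS) (h2 : S_FEJ) : S_WIN := by
  intro A β θ δ d hA hβ hirr hθ hd hδ
  obtain ⟨H, ε, hε, hF⟩ := h2 δ hδ
  have hβ0 : 0 < β := by linarith
  have hdr : (0 : ℝ) < |(d : ℝ)| := abs_pos.2 (by exact_mod_cast hd)
  have hθ0 : 0 < |θ| := abs_pos.2 hθ
  set η := ε ^ 2 / (8 * (H + 1)) with hη
  have hη0 : 0 < η := by positivity
  have hbi : 0 < 1 - β⁻¹ := by
    have : β⁻¹ < 1 := inv_lt_one_of_one_lt₀ hβ
    linarith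
  have hc1 : 0 < |θ| * |(d : ℝ)| * (1 - β⁻¹) := by positivity
  obtain ⟨S₀, hS₀⟩ := h1 A β (|θ| * |(d : ℝ)| * (1 - β⁻¹)) (H * |θ| * |(d : ℝ)| * β) η hA hβ hirr hc1 hη0
  obtain ⟨S₁, hS₁⟩ := exists_nat_ge (4 * ((H : ℝ) + 1) / ε ^ 2)
  set S := max S₀ S₁ + 1 with hS
  have hSS₀ : S₀ ≤ S := by omega
  have hS0 : (0 : ℝ) < S := by rw [hS]; positivity
  have hS1 : 4 * ((H : ℝ) + 1) / ε ^ 2 ≤ S := by
    refine hS₁.trans ?_
    exact_mod_cast (by omega : S₁ ≤ S)
  obtain ⟨m₀, hm₀⟩ := hS₀ S hSS₀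
  refine ⟨S, m₀, fun m hm κ hκ1 hκ2 φ => ?_⟩
  have hcos := hm₀ m hm
  have hκ0 : 0 < κ := by linarith
  -- Weyl sums
  set Wn : ℕ → (Fin m → Bool) → ℝ := fun h z =>
    ‖∑ t ∈ Finset.range S, Complex.exp (2 * Real.pi * Complex.I * (h * (φ t + θ * κ * β ^ t *
      (d * ∑ j : Fin m, (if z j then (1 : ℝ) else 0) / (A : ℝ) ^ ((j : ℕ) + 1)) : ℝ)))‖ with hWn
  have hsm : ∀ h : ℕ, 1 ≤ h → h ≤ H → ∑ z : Fin m → Bool, Wn h z ^ 2 ≤ 2 ^ m * (S + 2 * (S * (η * S))) := by
    intro h hh1 hh2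
    have hhr : (1 : ℝ) ≤ h := by exact_mod_cast hh1
    have hhr2 : (h : ℝ) ≤ H := by exact_mod_cast hh2
    have e1 : ∀ z, Wn h z = ‖∑ t ∈ Finset.range S, ex (h * φ t + (h * θ * κ * d * β ^ t) * XX A m z)‖ := by
      intro z
      simp only [hWn, ex, XX]
      congr 1
      refine Finset.sum_congr rfl fun t _ => ?_
      congr 1
      push_cast
      ring
    simp_rw [e1]
    refine (second_moment A m S (fun t => h * φ t) (fun t => h * θ * κ * d * β ^ t)).trans ?_
    apply mul_le_mul_of_nonneg_left _ (by positivity)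
    set u : ℕ → ℝ := fun g => h * |θ| * κ * |(d : ℝ)| * (1 - (β⁻¹) ^ g) with hu
    have hcosabs : ∀ (x w : ℝ), |w| = |x| → |Real.cos (Real.pi * w)| = |Real.cos (Real.pi * x)| := by
      intro x w hxw
      rw [← Real.cos_abs (Real.pi * w), ← Real.cos_abs (Real.pi * x), abs_mul, abs_mul, hxw]
    have huval : ∀ t g : ℕ, u g * β ^ (t + g) = h * |θ| * κ * |(d : ℝ)| * (β ^ (t + g) - β ^ t) := by
      intro t g
      simp only [hu]
      have : (β⁻¹) ^ g * β ^ (t + g) = β ^ t := by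
        rw [inv_pow, pow_add]
        field_simp
      linear_combination (-(h * |θ| * κ * |(d : ℝ)|)) * this
    apply pair_sum S (fun t t' => ∏ j ∈ Finset.range m, |Real.cos (Real.pi *
        ((h * θ * κ * d * β ^ t - h * θ * κ * d * β ^ t') / (A : ℝ) ^ (j + 1)))|)
      (fun g t => ∏ j ∈ Finset.range m, |Real.cos (Real.pi * (u g * β ^ t / (A : ℝ) ^ (j + 1)))|)
      (η * S) (by positivity)
    · intro g t
      exact Finset.prod_nonneg fun _ _ => abs_nonneg _
    · intro t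
      exact Finset.prod_le_one (fun _ _ => abs_nonneg _) fun _ _ => Real.abs_cos_le_one _
    · intro t g hg
      refine Finset.prod_congr rfl fun j _ => hcosabs _ _ ?_
      rw [huval]
      have hpos : 0 ≤ β ^ (t + g) - β ^ t := by
        have := pow_le_pow_right₀ hβ.le (Nat.le_add_right t g)
        linarith
      have e2 : h * θ * κ * d * β ^ (t + g) - h * θ * κ * d * β ^ t = h * θ * κ * d * (β ^ (t + g) - β ^ t) := by
        ring
      rw [e2]
      simp only [abs_div, abs_mul, abs_abs]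
    · intro t g hg
      refine Finset.prod_congr rfl fun j _ => hcosabs _ _ ?_
      rw [huval]
      have e2 : h * θ * κ * d * β ^ t - h * θ * κ * d * β ^ (t + g) = -(h * θ * κ * d * (β ^ (t + g) - β ^ t)) := by
        ring
      rw [e2]
      simp only [abs_div, abs_mul, abs_abs, abs_neg]
    · intro g hg
      have hg1 : (β⁻¹) ^ g ≤ β⁻¹ := by
        calc (β⁻¹) ^ g ≤ (β⁻¹) ^ 1 := pow_le_pow_of_le_one (by positivity) (by linarith) hg
          _ = β⁻¹ := pow_one _
      have hg0 : 0 < (β⁻¹) ^ g := by positivity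
      refine hcos (u g) ?_ ?_
      · simp only [hu]
        have a1 : 1 - β⁻¹ ≤ 1 - (β⁻¹) ^ g := by linarith
        calc |θ| * |(d : ℝ)| * (1 - β⁻¹) ≤ |θ| * |(d : ℝ)| * (1 - (β⁻¹) ^ g) := by gcongr
          _ = 1 * |θ| * 1 * |(d : ℝ)| * (1 - (β⁻¹) ^ g) := by ring
          _ ≤ h * |θ| * κ * |(d : ℝ)| * (1 - (β⁻¹) ^ g) := by
              have : 0 ≤ 1 - (β⁻¹) ^ g := by linarith
              gcongr
      · simp only [hu]
        have a1 : 1 - (β⁻¹) ^ g ≤ 1 := by linarith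
        have a0 : 0 ≤ 1 - (β⁻¹) ^ g := by linarith
        calc h * |θ| * κ * |(d : ℝ)| * (1 - (β⁻¹) ^ g) ≤ H * |θ| * β * |(d : ℝ)| * 1 := by gcongr
          _ = _ := by ring
  -- good words
  set bad : ℕ → Finset (Fin m → Bool) := fun h => Finset.univ.filter (fun z => ε * S < Wn h z) with hbad
  have hbadc : ∀ h ∈ Finset.Icc 1 H, ((bad h).card : ℝ) ≤ 2 ^ m * ((1 / S + 2 * η) / ε ^ 2) := by
    intro h hh
    have hh := Finset.mem_Icc.1 hh
    have a1 : ((bad h).card : ℝ) * (ε * S) ^ 2 ≤ ∑ z : Fin m → Bool, Wn h z ^ 2 := by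
      calc ((bad h).card : ℝ) * (ε * S) ^ 2 = ∑ z ∈ bad h, (ε * S) ^ 2 := by
            rw [Finset.sum_const, nsmul_eq_mul]
        _ ≤ ∑ z ∈ bad h, Wn h z ^ 2 := by
            refine Finset.sum_le_sum fun z hz => ?_
            simp only [hbad, Finset.mem_filter] at hz
            exact pow_le_pow_left₀ (by positivity) hz.2.le 2
        _ ≤ ∑ z : Fin m → Bool, Wn h z ^ 2 :=
            Finset.sum_le_sum_of_subset_of_nonneg (Finset.subset_univ _) fun z _ _ => by positivity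
    have a2 := a1.trans (hsm h hh.1 hh.2)
    have a3 : (0 : ℝ) < (ε * S) ^ 2 := by positivity
    rw [← le_div_iff₀ a3] at a2
    refine a2.trans (le_of_eq ?_)
    field_simp
  have hsmall : (H : ℝ) * ((1 / S + 2 * η) / ε ^ 2) ≤ 1 / 2 := by
    have a1 : 1 / (S : ℝ) ≤ ε ^ 2 / (4 * (H + 1)) := by
      rw [div_le_div_iff₀ hS0 (by positivity)]
      rw [div_le_iff₀ (by positivity)] at hS1
      linarith
    have a2 : 1 / (S : ℝ) + 2 * η ≤ ε ^ 2 / (2 * (H + 1)) := by
      rw [hη]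
      calc 1 / (S : ℝ) + 2 * (ε ^ 2 / (8 * (H + 1))) ≤ ε ^ 2 / (4 * (H + 1)) + 2 * (ε ^ 2 / (8 * (H + 1))) := by
            linarith
        _ = _ := by field_simp; norm_num
    calc (H : ℝ) * ((1 / S + 2 * η) / ε ^ 2) ≤ (H : ℝ) * ((ε ^ 2 / (2 * ((H : ℝ) + 1))) / ε ^ 2) := by gcongr
      _ = (H : ℝ) / (2 * ((H : ℝ) + 1)) := by field_simp
      _ ≤ 1 / 2 := by
          rw [div_le_div_iff₀ (by positivity) (by norm_num)]
          have : (0 : ℝ) ≤ H := Nat.cast_nonneg H
          linarith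
  set BAD := (Finset.Icc 1 H).biUnion bad with hBAD
  have hBADc : (BAD.card : ℝ) ≤ 2 ^ m / 2 := by
    have a1 : (BAD.card : ℝ) ≤ ∑ h ∈ Finset.Icc 1 H, ((bad h).card : ℝ) := by
      exact_mod_cast Finset.card_biUnion_le
    refine a1.trans ((Finset.sum_le_sum hbadc).trans ?_)
    rw [Finset.sum_const, nsmul_eq_mul, Nat.card_Icc]
    simp only [Nat.add_sub_cancel]
    have : (0 : ℝ) < 2 ^ m := by positivity
    nlinarith
  set GOOD := {z : Fin m → Bool | Dens S δ (fun t => φ t + θ * κ * β ^ t *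
      (d * ∑ j : Fin m, (if z j then (1 : ℝ) else 0) / (A : ℝ) ^ ((j : ℕ) + 1)))} with hGOOD
  have hcov : ((Finset.univ \ BAD : Finset (Fin m → Bool)) : Set (Fin m → Bool)) ⊆ GOOD := by
    intro z hz
    rw [Finset.mem_coe, Finset.mem_sdiff, hBAD, Finset.mem_biUnion] at hz
    refine hF S _ (by omega) fun h hh1 hh2 => ?_
    by_contra hcon
    apply hz.2
    refine ⟨h, Finset.mem_Icc.2 ⟨hh1, hh2⟩, ?_⟩
    simp only [hbad, Finset.mem_filter, Finset.mem_univ, true_and]
    exact not_le.1 hcon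
  have hcard : (Finset.univ \ BAD : Finset (Fin m → Bool)).card ≤ GOOD.ncard := by
    rw [← Set.ncard_coe_finset]
    exact Set.ncard_le_ncard hcov (Set.toFinite _)
  have htot : (Finset.univ \ BAD : Finset (Fin m → Bool)).card + BAD.card = 2 ^ m := by
    rw [Finset.card_sdiff_add_card_eq_card (Finset.subset_univ _), Finset.card_univ]
    simp
  have h5 : ((2 ^ m : ℕ) : ℝ) ≤ ((2 * GOOD.ncard : ℕ) : ℝ) := by
    have h6 : (((Finset.univ \ BAD : Finset (Fin m → Bool)).card + BAD.card : ℕ) : ℝ) = 2 ^ m := by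
      rw [htot]; push_cast; rfl
    have h7 : ((Finset.univ \ BAD : Finset (Fin m → Bool)).card : ℝ) ≤ GOOD.ncard := by exact_mod_cast hcard
    push_cast at h6 ⊢
    linarith
  exact_mod_cast h5

end Pool.Agent.H76.MZ
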